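import Pool.Agent.W770.KP.Stm

/-! The top degree part of a combination of homogeneous families. -/

set_option autoImplicit false

open scoped Classical
open Pool.Agent.W770.KP MvPolynomial

namespace Pool.Agent.W392.KP

theorem top : S_TOP := by
  intro F _ n I N B hB c hc
  have hex : ((Finset.univ : Finset I).filter
      (fun e : I => (fun s : Fin (N (e : ℕ)) => c ⟨e, s⟩) ≠ 0)).Nonempty := by
    obtain ⟨⟨e, s⟩, h⟩ := Function.ne_iff.mp hc
    refine ⟨e, Finset.mem_filter.mpr ⟨Finset.mem_univ _, ?_⟩⟩
    intro h0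
    exact h (congrFun h0 s)
  obtain ⟨e, he, hmax⟩ := Finset.exists_max_image _ (fun e : I => (e : ℕ)) hex
  rw [Finset.mem_filter] at he
  have hz : ∀ (e' : I) (s : Fin (N (e' : ℕ))), (e : ℕ) < (e' : ℕ) → c ⟨e', s⟩ = 0 := by
    intro e' s hlt
    by_contra h
    have h1 := hmax e' (Finset.mem_filter.mpr ⟨Finset.mem_univ _, fun h0 => h (congrFun h0 s)⟩)
    omega
  refine ⟨e, he.2, ?_, ?_⟩
  · unfold lc
    refine totalDegree_finsetSum_le fun i _ => ?_
    by_cases h : (e : ℕ) < (i.1 : ℕ)
    · have : c i = 0 := hz i.1 i.2 h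
      rw [this]
      simp
    · have h1 : (C (c i) * B (i.1 : ℕ) i.2).IsHomogeneous (0 + (i.1 : ℕ)) :=
        (isHomogeneous_C _ _).mul (hB _ _)
      refine h1.totalDegree_le.trans ?_
      omega
  · unfold lc
    rw [map_sum, Fintype.sum_sigma, Finset.sum_eq_single e]
    · refine Finset.sum_congr rfl fun s _ => ?_
      rw [homogeneousComponent_C_mul, homogeneousComponent_of_mem (hB _ _), if_pos rfl]
    · intro e' _ hne
      refine Finset.sum_eq_zero fun s _ => ?_
      rw [homogeneousComponent_C_mul, homogeneousComponent_of_mem (hB _ _), if_neg, mul_zero]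
      intro h
      exact hne (Subtype.ext h.symm)
    · intro h
      exact absurd (Finset.mem_univ _) h

end Pool.Agent.W392.KP
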